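import Pool.Agent.Lib_helper76.BandProof

open Pool.Agent.Lib_helper76.Band

namespace Pool.Agent.Results.MP_c6db0f_gt.BandHomeo

universe u

/-- For every uncountable `κ` and any two admissible pairs `(a,b)`, `(a',b')`,
the spaces `B(κ,a,b)` and `B(κ,a',b')` are homeomorphic. In particular (`a' = -1`, `b' = 1`)
every `B(κ,a,b)` is homeomorphic to `B(κ)`. -/
theorem result (κ : Type u) [Uncountable κ] (a b a' b' : κ → ℝ)
    (h : Admissible a b) (h' : Admissible a' b') :
    Nonempty (Band κ a b ≃ₜ Band κ a' b') := by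
  obtain ⟨e⟩ := homeo_pos h
  obtain ⟨e'⟩ := homeo_pos h'
  exact ⟨e.trans e'.symm⟩

end Pool.Agent.Results.MP_c6db0f_gt.BandHomeo
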